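import Pool.Agent.W307.RS.Stm

/-! Subtask TRS-AVHS (owner helper307): the average of a multiplicative function close to one over a
short interval. -/

set_option autoImplicit false

namespace Pool.Agent.W405.RS

open Finset

/-- multiples in an interval -/
theorem card_dvd_le (N : ℤ) (X d : ℕ) (hd : 0 < d) :
    (((Icc 1 X).filter (fun v : ℕ => (d : ℤ) ∣ N + (v : ℤ))).card : ℝ) ≤ (X : ℝ) / d + 1 := by
  have h1 : ((Icc 1 X).filter (fun v : ℕ => (d : ℤ) ∣ N + (v : ℤ))).card ≤ X / d + 1 := by
    have h2 : ((Icc 1 X).filter (fun v : ℕ => (d : ℤ) ∣ N + (v : ℤ))).card ≤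
        (range (X / d + 1)).card := by
      apply card_le_card_of_injOn (fun v => (v - 1) / d)
      · intro v hv
        rw [mem_coe, mem_filter, mem_Icc] at hv
        rw [mem_coe, mem_range]
        have h3 : (v - 1) / d ≤ X / d := Nat.div_le_div_right (by omega)
        simp only
        omega
      · intro v hv v' hv' he
        rw [mem_coe, mem_filter, mem_Icc] at hv hv'
        simp only at he
        have e1 := Nat.div_add_mod (v - 1) d
        have e2 := Nat.div_add_mod (v' - 1) d
        have e3 := Nat.mod_lt (v - 1) hd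
        have e4 := Nat.mod_lt (v' - 1) hd
        rw [he] at e1
        have hdv : (d : ℤ) ∣ (v : ℤ) - v' := by
          have := dvd_sub hv.2 hv'.2
          have e5 : N + (v : ℤ) - (N + (v' : ℤ)) = (v : ℤ) - v' := by ring
          rwa [e5] at this
        have hlt : |(v : ℤ) - v'| < d := by
          rw [abs_lt]
          constructor <;> omega
        have := Int.eq_zero_of_abs_lt_dvd hdv hlt
        omega
    rwa [card_range] at h2
  have h2 : ((X / d : ℕ) : ℝ) ≤ (X : ℝ) / d := Nat.cast_div_le
  have h3 : (((Icc 1 X).filter (fun v : ℕ => (d : ℤ) ∣ N + (v : ℤ))).card : ℝ) ≤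
      ((X / d : ℕ) : ℝ) + 1 := by exact_mod_cast h1
  linarith

/-- few large prime factors -/
theorem card_large (w X Y K B z : ℕ) (hX : 1 ≤ X) (hw : w ≠ 0)
    (hwX : w ≤ X ^ B + X) (hY : ∀ p, Y < p → X < p ^ K) :
    (w.primeFactors.filter (fun p => z < p ∧ Y < p)).card ≤ (B + 2) * K := by
  set L := w.primeFactors.filter (fun p => z < p ∧ Y < p) with hL
  have h1 : (∏ p ∈ L, p) ∣ w := by
    apply prod_primes_dvd
    · intro p hp
      rw [hL, mem_filter, Nat.mem_primeFactors] at hp
      exact hp.1.1.prime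
    · intro p hp
      rw [hL, mem_filter, Nat.mem_primeFactors] at hp
      exact hp.1.2.1
  have h2 : ∏ p ∈ L, p ≤ w := Nat.le_of_dvd (Nat.pos_of_ne_zero hw) h1
  have h3 : (X + 1) ^ L.card ≤ ∏ p ∈ L, p ^ K := by
    rw [← prod_const]
    apply prod_le_prod'
    intro p hp
    rw [hL, mem_filter] at hp
    exact hY p hp.2.2
  have h4 : (X + 1) ^ L.card ≤ (X + 1) ^ ((B + 2) * K) := by
    calc (X + 1) ^ L.card ≤ ∏ p ∈ L, p ^ K := h3
      _ = (∏ p ∈ L, p) ^ K := prod_pow _ _ _
      _ ≤ w ^ K := Nat.pow_le_pow_left h2 K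
      _ ≤ ((X + 1) ^ (B + 2)) ^ K := by
        apply Nat.pow_le_pow_left
        have e1 : X ^ B ≤ (X + 1) ^ (B + 1) :=
          (Nat.pow_le_pow_left (by omega) B).trans (Nat.pow_le_pow_right (by omega) (by omega))
        have e2 : X ≤ (X + 1) ^ (B + 1) := by
          calc X ≤ (X + 1) ^ 1 := by rw [pow_one]; omega
            _ ≤ (X + 1) ^ (B + 1) := Nat.pow_le_pow_right (by omega) (by omega)
        have e3 : (X + 1) ^ (B + 2) = (X + 1) ^ (B + 1) * (X + 1) := pow_succ _ _
        have e4 : (X + 1) ^ (B + 1) * 2 ≤ (X + 1) ^ (B + 1) * (X + 1) :=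
          Nat.mul_le_mul_left _ (by omega)
        omega
      _ = (X + 1) ^ ((B + 2) * K) := by rw [← pow_mul]
  exact (Nat.pow_le_pow_iff_right (by omega)).mp h4

theorem avhs : Pool.Agent.W307.RS.AVHS := by
  intro c z B hz
  have hsq : Summable (fun n : ℕ => 1 / (n : ℝ) ^ 2) := Real.summable_one_div_nat_pow.2 (by norm_num)
  set S2 : ℝ := ∑' n : ℕ, 1 / (n : ℝ) ^ 2 with hS2
  set K : ℕ := 2 * c + 1 with hK
  refine ⟨2 ^ ((B + 2) * K) * (Real.exp (2 * c * S2) + 2 ^ (2 * c)), by positivity, ?_⟩
  intro N X hX hN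
  set Y : ℕ := Nat.findGreatest (fun n => n ^ K ≤ X) X with hYdef
  have hYX : Y ^ K ≤ X := by
    have := Nat.findGreatest_spec (P := fun n => n ^ K ≤ X) (m := 1) (n := X) hX
      (by rw [one_pow]; exact hX)
    exact this
  have hY1 : 1 ≤ Y := Nat.le_findGreatest hX (by rw [one_pow]; exact hX)
  have hYgt : ∀ p, Y < p → X < p ^ K := by
    intro p hp
    by_contra hcon
    rw [not_lt] at hcon
    have h1 : p ≤ p ^ K := Nat.le_self_pow (by omega) p
    have h2 : p ≤ Y := Nat.le_findGreatest (h1.trans hcon) hcon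
    omega
  set Pr : Finset ℕ := (Icc 1 Y).filter (fun p => p.Prime ∧ z < p) with hPr
  set g : ℕ → ℝ := fun p => (c : ℝ) / ((p : ℝ) - c) with hg
  have hbig : ∀ p : ℕ, z < p → (p : ℝ) / 2 ≤ (p : ℝ) - c ∧ 0 < (p : ℝ) := by
    intro p hp
    have h1 : 2 * c + 2 < p := lt_of_le_of_lt hz hp
    have h2 : 2 * (c : ℝ) + 2 < p := by exact_mod_cast h1
    have h3 : (0 : ℝ) ≤ c := Nat.cast_nonneg c
    exact ⟨by linarith, by linarith⟩
  have hpc : ∀ p ∈ Pr, (p : ℝ) / 2 ≤ (p : ℝ) - c ∧ 0 < (p : ℝ) := by
    intro p hp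
    rw [hPr, mem_filter] at hp
    exact hbig p hp.2.2
  have hg0 : ∀ p ∈ Pr, 0 ≤ g p := by
    intro p hp
    have := hpc p hp
    exact div_nonneg (Nat.cast_nonneg c) (by linarith)
  -- splitting
  have hsplit : ∀ v ∈ Icc 1 X,
      ∏ p ∈ (N + (v : ℤ)).natAbs.primeFactors.filter (fun p => z < p), (p : ℝ) / ((p : ℝ) - c) ≤
        2 ^ ((B + 2) * K) * ∑ T ∈ Pr.powerset,
          if T ⊆ (N + (v : ℤ)).natAbs.primeFactors.filter (fun p => z < p) then ∏ p ∈ T, g p
          else 0 := by
    intro v hv
    rw [mem_Icc] at hv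
    set w : ℕ := (N + (v : ℤ)).natAbs with hw
    set A := w.primeFactors.filter (fun p => z < p) with hA
    -- small part
    have hsmall : ∏ p ∈ A.filter (fun p => ¬ Y < p), (p : ℝ) / ((p : ℝ) - c) =
        ∑ T ∈ Pr.powerset, if T ⊆ A then ∏ p ∈ T, g p else 0 := by
      have hsub : A.filter (fun p => ¬ Y < p) ⊆ Pr := by
        intro p hp
        rw [mem_filter, hA, mem_filter, Nat.mem_primeFactors] at hp
        rw [hPr, mem_filter, mem_Icc]
        exact ⟨⟨hp.1.1.1.one_le, by omega⟩, hp.1.1.1, hp.1.2⟩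
      have h1 : ∏ p ∈ A.filter (fun p => ¬ Y < p), (p : ℝ) / ((p : ℝ) - c)
          = ∏ p ∈ A.filter (fun p => ¬ Y < p), (1 + g p) := by
        apply prod_congr rfl
        intro p hp
        have h2 := hpc p (hsub hp)
        have h3 : (p : ℝ) - c ≠ 0 := by
          have := h2.1
          have := h2.2
          linarith
        simp only [hg]
        field_simp
        ring
      rw [h1, prod_one_add, ← sum_filter]
      apply sum_congr _ (fun _ _ => rfl)
      ext T
      simp only [mem_powerset, mem_filter]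
      constructor
      · intro h
        exact ⟨h.trans hsub, h.trans (filter_subset _ _)⟩
      · rintro ⟨h2, h3⟩ p hp
        rw [mem_filter]
        refine ⟨h3 hp, ?_⟩
        have := h2 hp
        rw [hPr, mem_filter, mem_Icc] at this
        omega
    have hsmall0 : 0 ≤ ∏ p ∈ A.filter (fun p => ¬ Y < p), (p : ℝ) / ((p : ℝ) - c) := by
      apply prod_nonneg
      intro p hp
      rw [mem_filter, hA, mem_filter] at hp
      have := hbig p hp.1.2
      exact div_nonneg this.2.le (by linarith)
    have hlarge : ∏ p ∈ A.filter (fun p => Y < p), (p : ℝ) / ((p : ℝ) - c) ≤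
        2 ^ ((B + 2) * K) := by
      have hcard : (A.filter (fun p => Y < p)).card ≤ (B + 2) * K := by
        by_cases hw0 : w = 0
        · rw [hA, hw0]
          simp
        · have e1 : A.filter (fun p => Y < p) = w.primeFactors.filter (fun p => z < p ∧ Y < p) := by
            rw [hA, filter_filter]
          rw [e1]
          refine card_large w X Y K B z hX hw0 ?_ hYgt
          have e2 : w ≤ N.natAbs + (v : ℤ).natAbs := Int.natAbs_add_le _ _
          have e3 : (v : ℤ).natAbs = v := Int.natAbs_natCast v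
          omega
      calc ∏ p ∈ A.filter (fun p => Y < p), (p : ℝ) / ((p : ℝ) - c)
          ≤ ∏ _p ∈ A.filter (fun p => Y < p), (2 : ℝ) := by
            apply prod_le_prod
            · intro p hp
              rw [mem_filter, hA, mem_filter] at hp
              have := hbig p hp.1.2
              exact div_nonneg this.2.le (by linarith)
            · intro p hp
              rw [mem_filter, hA, mem_filter] at hp
              have := hbig p hp.1.2
              rw [div_le_iff₀ (by linarith)]
              linarith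
        _ = 2 ^ (A.filter (fun p => Y < p)).card := by rw [prod_const]
        _ ≤ 2 ^ ((B + 2) * K) := pow_le_pow_right₀ (by norm_num) hcard
    rw [← hsmall, ← prod_filter_mul_prod_filter_not A (fun p => Y < p)]
    exact mul_le_mul_of_nonneg_right hlarge hsmall0
  refine (sum_le_sum hsplit).trans ?_
  rw [← mul_sum, mul_assoc]
  apply mul_le_mul_of_nonneg_left _ (by positivity)
  rw [sum_comm]
  -- each subset
  have hT : ∀ T ∈ Pr.powerset, (∑ v ∈ Icc 1 X,
      if T ⊆ (N + (v : ℤ)).natAbs.primeFactors.filter (fun p => z < p) then ∏ p ∈ T, g p else 0)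
      ≤ X * ∏ p ∈ T, (g p / p) + ∏ p ∈ T, g p := by
    intro T hT
    rw [mem_powerset] at hT
    rw [← sum_filter, sum_const, nsmul_eq_mul]
    have hG0 : 0 ≤ ∏ p ∈ T, g p := prod_nonneg fun p hp => hg0 p (hT hp)
    have hne : ∏ p ∈ T, p ≠ 0 := by
      apply prod_ne_zero_iff.2
      intro p hp
      have := (mem_filter.1 (hT hp)).2.1
      exact this.ne_zero
    have hcard : (((Icc 1 X).filter
        (fun v : ℕ => T ⊆ (N + (v : ℤ)).natAbs.primeFactors.filter (fun p => z < p))).card : ℝ)
        ≤ (X : ℝ) / ((∏ p ∈ T, p : ℕ) : ℝ) + 1 := by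
      refine le_trans ?_ (card_dvd_le N X _ (Nat.pos_of_ne_zero hne))
      norm_cast
      apply card_le_card
      intro v hv
      rw [mem_filter] at hv ⊢
      refine ⟨hv.1, ?_⟩
      rw [Int.natCast_dvd]
      apply prod_primes_dvd
      · intro p hp
        exact ((mem_filter.1 (hT hp)).2.1).prime
      · intro p hp
        have := hv.2 hp
        rw [mem_filter, Nat.mem_primeFactors] at this
        exact this.1.2.1
    calc (((Icc 1 X).filter
        (fun v : ℕ => T ⊆ (N + (v : ℤ)).natAbs.primeFactors.filter (fun p => z < p))).card : ℝ) *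
          ∏ p ∈ T, g p
        ≤ ((X : ℝ) / ((∏ p ∈ T, p : ℕ) : ℝ) + 1) * ∏ p ∈ T, g p :=
          mul_le_mul_of_nonneg_right hcard hG0
      _ = X * ∏ p ∈ T, (g p / p) + ∏ p ∈ T, g p := by
          have e : ∏ p ∈ T, (g p / (p : ℝ)) = (∏ p ∈ T, g p) / ∏ p ∈ T, (p : ℝ) :=
            prod_div_distrib g (fun p : ℕ => (p : ℝ))
          rw [e]
          push_cast
          ring
  refine (sum_le_sum hT).trans ?_
  rw [sum_add_distrib, ← mul_sum, ← prod_one_add, ← prod_one_add, add_mul]
  apply add_le_add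
  · rw [mul_comm]
    apply mul_le_mul_of_nonneg_right _ (Nat.cast_nonneg X)
    have hfac : ∀ p ∈ Pr, 1 + g p / p ≤ Real.exp (2 * c * (1 / (p : ℝ) ^ 2)) := by
      intro p hp
      have h2 := hpc p hp
      have h3 : g p / p ≤ 2 * c * (1 / (p : ℝ) ^ 2) := by
        simp only [hg]
        have h4 : (c : ℝ) / ((p : ℝ) - c) ≤ c / ((p : ℝ) / 2) := by
          apply div_le_div_of_nonneg_left (Nat.cast_nonneg c) (by linarith [h2.2]) h2.1
        calc (c : ℝ) / ((p : ℝ) - c) / p ≤ c / ((p : ℝ) / 2) / p :=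
              div_le_div_of_nonneg_right h4 h2.2.le
          _ = 2 * c * (1 / (p : ℝ) ^ 2) := by
              have := h2.2.ne'
              field_simp
      have h4 := Real.add_one_le_exp (2 * c * (1 / (p : ℝ) ^ 2))
      linarith
    calc ∏ p ∈ Pr, (1 + g p / p) ≤ ∏ p ∈ Pr, Real.exp (2 * c * (1 / (p : ℝ) ^ 2)) := by
          apply prod_le_prod
          · intro p hp
            have := hg0 p hp
            have := (hpc p hp).2
            positivity
          · exact hfac
      _ = Real.exp (∑ p ∈ Pr, 2 * c * (1 / (p : ℝ) ^ 2)) := (Real.exp_sum _ _).symm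
      _ ≤ Real.exp (2 * c * S2) := by
          apply Real.exp_le_exp.2
          rw [← mul_sum]
          apply mul_le_mul_of_nonneg_left _ (by positivity)
          exact hsq.sum_le_tsum Pr (fun n _ => by positivity)
  · -- the product over the small primes
    have htel : ∀ m : ℕ, ∏ n ∈ Icc 1 m, (1 + 1 / (n : ℝ)) = m + 1 := by
      intro m
      induction m with
      | zero => simp
      | succ m ih =>
        rw [prod_Icc_succ_top (by omega), ih]
        push_cast
        have : (m : ℝ) + 1 ≠ 0 := by positivity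
        field_simp
    have hfac : ∀ p ∈ Pr, 1 + g p ≤ (1 + 1 / (p : ℝ)) ^ (2 * c) := by
      intro p hp
      have h2 := hpc p hp
      have h3 : g p ≤ (2 * c : ℕ) * (1 / (p : ℝ)) := by
        simp only [hg]
        have h4 : (c : ℝ) / ((p : ℝ) - c) ≤ c / ((p : ℝ) / 2) := by
          apply div_le_div_of_nonneg_left (Nat.cast_nonneg c) (by linarith [h2.2]) h2.1
        calc (c : ℝ) / ((p : ℝ) - c) ≤ c / ((p : ℝ) / 2) := h4
          _ = (2 * c : ℕ) * (1 / (p : ℝ)) := by
              have := h2.2.ne'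
              push_cast
              field_simp
      have h4 : 1 + ((2 * c : ℕ) : ℝ) * (1 / (p : ℝ)) ≤ (1 + 1 / (p : ℝ)) ^ (2 * c) :=
        one_add_mul_le_pow (by have := h2.2; have : (0 : ℝ) < 1 / p := by positivity
                               linarith) _
      linarith
    calc ∏ p ∈ Pr, (1 + g p) ≤ ∏ p ∈ Pr, (1 + 1 / (p : ℝ)) ^ (2 * c) := by
          apply prod_le_prod
          · intro p hp
            have := hg0 p hp
            linarith
          · exact hfac
      _ ≤ ∏ p ∈ Icc 1 Y, (1 + 1 / (p : ℝ)) ^ (2 * c) := by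
          rw [← prod_filter_mul_prod_filter_not (Icc 1 Y) (fun p => p.Prime ∧ z < p)]
          have h1 : (1 : ℝ) ≤ ∏ p ∈ (Icc 1 Y).filter (fun p => ¬ (p.Prime ∧ z < p)),
              (1 + 1 / (p : ℝ)) ^ (2 * c) := by
            apply prod_induction _ (fun x : ℝ => 1 ≤ x)
              (fun a b ha hb => one_le_mul_of_one_le_of_one_le ha hb) le_rfl
            intro p _
            apply one_le_pow₀
            have : (0 : ℝ) ≤ 1 / (p : ℝ) := by positivity
            linarith
          have h2 : (0 : ℝ) ≤ ∏ p ∈ (Icc 1 Y).filter (fun p => p.Prime ∧ z < p),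
              (1 + 1 / (p : ℝ)) ^ (2 * c) := prod_nonneg fun p _ => by positivity
          exact le_mul_of_one_le_right h2 h1
      _ = ((Y : ℝ) + 1) ^ (2 * c) := by rw [prod_pow, htel]
      _ ≤ (2 * (Y : ℝ)) ^ (2 * c) := by
          have : (1 : ℝ) ≤ Y := by exact_mod_cast hY1
          gcongr
          linarith
      _ = 2 ^ (2 * c) * (Y : ℝ) ^ (2 * c) := mul_pow _ _ _
      _ ≤ 2 ^ (2 * c) * X := by
          apply mul_le_mul_of_nonneg_left _ (by positivity)
          have e1 : Y ^ (2 * c) ≤ X :=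
            (Nat.pow_le_pow_right hY1 (by omega)).trans hYX
          exact_mod_cast e1

end Pool.Agent.W405.RS
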